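import Pool.Agent.Lib.H36S.SL2
import Pool.Agent.Lib.H56Z.R
import Pool.Agent.Lib.H63F.G5
import Pool.Agent.Lib.H97W.Fin

/-!
# H36S, file Fin: plane weights with tree degrees, as a distribution on plane spanning trees

`exists_TD`: for real `d ≥ 1` with sum `2n - 2` there is a plane set `G` of pairs with weights `y` which have the
degrees `d` and satisfy the cut conditions of the spanning tree polytope. `dist_of_TD`: such weights are an average of
spanning trees with edges in `G` (extreme points: `SL2`). `comp_of_TD`: the number of components of `G - S`.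
-/

open Finset H98P H98Z H98M H63F

set_option autoImplicit false
set_option linter.unusedSectionVars false

namespace H36S

variable {V : Type*} [Fintype V] [DecidableEq V]

/-- plane weights with the degrees `d` in the spanning tree polytope -/
theorem exists_TD (hV : 2 ≤ Fintype.card V) {cross : Sym2 V → Sym2 V → Prop}
    (hsymm : ∀ e f, cross e f → cross f e) (hHD : ∀ W : Finset V, HD cross W) {d : V → ℝ}
    (hd : ∀ v, 1 ≤ d v) (hs : ∑ v, d v = 2 * (Fintype.card V : ℝ) - 2) :
    ∃ G : Finset (Sym2 V), Plane cross G ∧ (∀ v, s(v, v) ∉ G) ∧ ∃ y, H56R.TD G d y := by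
  obtain ⟨x0, h0, h1, -, h2⟩ := H56R.exists_x0 hV hd hs
  obtain ⟨G, hG, hl, x, hx, hc⟩ := limit_c hV hsymm hHD (r := H56R.rd d)
    (fun S T _ => Or.inl (H56R.rd_unc d S T)) h0 h1 h2
  exact ⟨G, hG, hl, H56R.td_of_limit hV hs hl hx hc⟩

/-- twice the weight inside `S` plus the weight across `S` is the sum of the degrees -/
theorem inside (y : Sym2 V → ℝ) (hl : ∀ v, y s(v, v) = 0) (S : Finset V) :
    ∑ v ∈ S, cutw y {v} = 2 * (∑ e with (∀ v ∈ e, v ∈ S), y e) + cutw y S := by
  classical
  unfold cutw
  rw [sum_comm, sum_filter, mul_sum, ← sum_add_distrib]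
  refine sum_congr rfl fun e _ => ?_
  rw [← mul_sum]
  induction e using Sym2.ind with
  | _ a b =>
    by_cases hab : a = b
    · subst hab
      rw [hl]
      simp
    · have hva : ∀ v, px s(a, b) ({v} : Finset V) = (if v = a then 1 else 0) + (if v = b then 1 else 0) := by
        intro v
        by_cases h1 : v = a
        · subst h1
          rw [H56Z.px_one (mem_singleton_self v) (by simpa using Ne.symm hab), if_pos rfl, if_neg hab, add_zero]
        · by_cases h2 : v = b
          · subst h2
            rw [Sym2.eq_swap, H56Z.px_one (mem_singleton_self v) (by simpa using hab), if_neg h1, if_pos rfl,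
              zero_add]
          · rw [if_neg h1, if_neg h2, add_zero]
            refine H56Z.px_zero ?_
            rw [mem_singleton, mem_singleton]
            exact ⟨fun h => absurd h.symm h1, fun h => absurd h.symm h2⟩
      rw [sum_congr rfl fun v _ => hva v, sum_add_distrib, sum_ite_eq', sum_ite_eq']
      by_cases ha : a ∈ S <;> by_cases hb : b ∈ S
      · have h1 : px s(a, b) S = 0 := H56Z.px_zero ⟨fun _ => hb, fun _ => ha⟩
        have h2 : ∀ v ∈ s(a, b), v ∈ S := by
          intro v hv
          rw [Sym2.mem_iff] at hv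
          rcases hv with rfl | rfl
          · exact ha
          · exact hb
        rw [if_pos ha, if_pos hb, if_pos h2, h1]
        ring
      · have h1 : px s(a, b) S = 1 := H56Z.px_one ha hb
        have h2 : ¬ ∀ v ∈ s(a, b), v ∈ S := fun h => hb (h b (Sym2.mem_mk_right a b))
        rw [if_pos ha, if_neg hb, if_neg h2, h1]
        ring
      · have h1 : px s(a, b) S = 1 := by
          rw [Sym2.eq_swap]
          exact H56Z.px_one hb ha
        have h2 : ¬ ∀ v ∈ s(a, b), v ∈ S := fun h => ha (h a (Sym2.mem_mk_left a b))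
        rw [if_neg ha, if_pos hb, if_neg h2, h1]
        ring
      · have h1 : px s(a, b) S = 0 := H56Z.px_zero ⟨fun h => absurd h ha, fun h => absurd h hb⟩
        have h2 : ¬ ∀ v ∈ s(a, b), v ∈ S := fun h => ha (h a (Sym2.mem_mk_left a b))
        rw [if_neg ha, if_neg hb, if_neg h2, h1]
        ring

/-- the degree in the graph with edge set `T` -/
theorem deg_of {T : Finset (Sym2 V)} (hT : ∀ e ∈ T, ¬ e.IsDiag) (v : V) :
    ((SimpleGraph.fromEdgeSet (T : Set (Sym2 V))).neighborSet v).ncard = (T.filter fun e => v ∈ e).card := by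
  classical
  have hinj : Function.Injective fun w : V => s(v, w) := fun a b h => Sym2.congr_right.1 h
  rw [← Set.ncard_image_of_injective _ hinj, ← Set.ncard_coe_finset]
  congr 1
  ext e
  simp only [Set.mem_image, SimpleGraph.mem_neighborSet, SimpleGraph.fromEdgeSet_adj, mem_coe, mem_filter]
  constructor
  · rintro ⟨w, ⟨h1, _⟩, rfl⟩
    exact ⟨h1, Sym2.mem_mk_left _ _⟩
  · rintro ⟨h1, h2⟩
    obtain ⟨w, rfl⟩ := Sym2.mem_iff_exists.1 h2
    refine ⟨w, ⟨h1, ?_⟩, rfl⟩
    rintro rfl
    exact hT _ h1 (by simp)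

theorem cutw_single {y : Sym2 V → ℝ} (hl : ∀ v, y s(v, v) = 0) (v : V) :
    cutw y {v} = ∑ e with v ∈ e, y e := by
  unfold cutw
  rw [sum_filter]
  refine sum_congr rfl fun e _ => ?_
  induction e using Sym2.ind with
  | _ a b =>
    by_cases h : v ∈ s(a, b)
    · rw [if_pos h]
      rw [Sym2.mem_iff] at h
      by_cases hab : a = b
      · subst hab
        rw [hl, zero_mul]
      · rcases h with rfl | rfl
        · rw [H56Z.px_one (mem_singleton_self v) (by simpa using Ne.symm hab), mul_one]
        · rw [Sym2.eq_swap, H56Z.px_one (mem_singleton_self v) (by simpa using hab), mul_one]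
    · rw [if_neg h]
      rw [Sym2.mem_iff, not_or] at h
      rw [H56Z.px_zero, mul_zero]
      rw [mem_singleton, mem_singleton]
      exact ⟨fun h1 => absurd h1.symm h.1, fun h1 => absurd h1.symm h.2⟩

/-- THE DISTRIBUTION ON SPANNING TREES with expected degrees `d`. -/
theorem dist_of_TD [Nonempty V] {G : Finset (Sym2 V)} {d : V → ℝ} {y : Sym2 V → ℝ} (h : H56R.TD G d y) :
    ∃ (k : ℕ) (T : Fin k → SimpleGraph V) (w : Fin k → ℝ), (∀ i, 0 < w i) ∧ ∑ i, w i = 1 ∧
      (∀ i, T i ≤ SimpleGraph.fromEdgeSet (G : Set (Sym2 V)) ∧ (T i).IsTree) ∧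
      ∀ v, ∑ i, w i * ((T i).neighborSet v).ncard = d v := by
  classical
  have hl : ∀ v, y s(v, v) = 0 := fun v => h.supp _ (h.loop v)
  have hall : ∑ e, y e = (Fintype.card V : ℝ) - 1 := by
    have h1 := H56Z.sum_vert y hl
    rw [sum_congr rfl fun v _ => h.vert v, h.sum] at h1
    linarith
  obtain ⟨μ, hμ0, hμ1, hμT, hμe⟩ := decomp y h.nonneg (fun S hS => by
    have h1 := inside y hl S
    rw [sum_congr rfl fun v _ => h.vert v] at h1
    by_cases hSu : S = univ
    · have h2 : cutw y S = 0 := by
        unfold cutw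
        refine sum_eq_zero fun e _ => ?_
        have : px e S = 0 := by
          unfold px
          rw [if_neg]
          rintro ⟨a, _, b, hb, _⟩
          exact hb (by rw [hSu]; exact mem_univ b)
        rw [this, mul_zero]
      rw [h2, hSu, h.sum] at h1
      rw [hSu, card_univ]
      linarith
    · have h2 := h.cut S hS hSu
      linarith) hall
  set ι := {T : Finset (Sym2 V) // μ T ≠ 0} with hι
  obtain ⟨k, ⟨f⟩⟩ : ∃ k, Nonempty (Fin k ≃ ι) := ⟨Fintype.card ι, ⟨(Fintype.equivFin ι).symm⟩⟩
  have hsum : ∀ g : Finset (Sym2 V) → ℝ, ∑ i : Fin k, μ (f i).1 * g (f i).1 = ∑ T, μ T * g T := by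
    intro g
    rw [Equiv.sum_comp f (fun T : ι => μ T.1 * g T.1)]
    have h1 : ∑ T : ι, μ T.1 * g T.1 = ∑ T ∈ univ.filter (fun T => μ T ≠ 0), μ T * g T := by
      rw [← sum_subtype_eq_sum_filter]
      simp
      rfl
    rw [h1, sum_filter]
    refine sum_congr rfl fun T _ => ?_
    by_cases h2 : μ T = 0
    · simp [h2]
    · simp [h2]
  refine ⟨k, fun i => SimpleGraph.fromEdgeSet ((f i).1 : Set (Sym2 V)), fun i => μ (f i).1,
    fun i => lt_of_le_of_ne (hμ0 _) (Ne.symm (f i).2), ?_, fun i => ⟨?_, (hμT _ (f i).2).1⟩, fun v => ?_⟩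
  · have h1 := hsum fun _ => 1
    simpa [hμ1] using h1
  · intro a b hab
    rw [SimpleGraph.fromEdgeSet_adj] at hab ⊢
    refine ⟨?_, hab.2⟩
    have h1 := (hμT _ (f i).2).2.2 _ (mem_coe.1 hab.1)
    by_contra h2
    exact h1 (h.supp _ fun h3 => h2 (mem_coe.2 h3))
  · have h1 : ∀ i : Fin k, μ (f i).1 * (((SimpleGraph.fromEdgeSet ((f i).1 : Set (Sym2 V))).neighborSet v).ncard : ℝ) =
        μ (f i).1 * (((f i).1.filter fun e => v ∈ e).card : ℝ) := by
      intro i
      rw [deg_of (hμT _ (f i).2).2.1]
    rw [sum_congr rfl fun i _ => h1 i, hsum fun T => ((T.filter fun e => v ∈ e).card : ℝ), ← h.vert v,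
      cutw_single hl]
    have h2 : ∀ T : Finset (Sym2 V), μ T * ((T.filter fun e => v ∈ e).card : ℝ) =
        ∑ e with v ∈ e, (if e ∈ T then μ T else 0) := by
      intro T
      rw [← sum_filter, sum_const, nsmul_eq_mul, mul_comm]
      congr 2
      rw [filter_filter]
      congr 1
      ext e
      simp [and_comm]
    rw [sum_congr rfl fun T _ => h2 T, sum_comm]
    refine sum_congr rfl fun e _ => ?_
    rw [hμe, sum_filter]

/-- components of `G - S` -/
theorem comp_of_TD [Nonempty V] {G : Finset (Sym2 V)} {d : V → ℝ} {y : Sym2 V → ℝ} (h : H56R.TD G d y)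
    (S : Finset V) :
    (Nat.card ((SimpleGraph.fromEdgeSet (G : Set (Sym2 V))).induce {v | v ∉ S}).ConnectedComponent : ℝ) ≤
      ∑ v ∈ S, (d v - 1) + 1 := by
  classical
  obtain ⟨H, hH⟩ : ∃ H, H = (SimpleGraph.fromEdgeSet (G : Set (Sym2 V))).induce {v | v ∉ S} := ⟨_, rfl⟩
  rw [← hH]
  rcases S.eq_empty_or_nonempty with rfl | hS
  · have hcon := H56Z.connected_of (G := G) (fun S hS hSu => H56R.conn h hS hSu)
    have h1 : H.Preconnected := by
      intro u v
      obtain ⟨p⟩ := hcon.preconnected u.1 v.1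
      have h2 : ∀ a b : V, (SimpleGraph.fromEdgeSet (G : Set (Sym2 V))).Walk a b →
          ∀ (ha : a ∈ {v | v ∉ (∅ : Finset V)}) (hb : b ∈ {v | v ∉ (∅ : Finset V)}),
          H.Reachable ⟨a, ha⟩ ⟨b, hb⟩ := by
        intro a b p
        induction p with
        | nil => intro ha hb; exact SimpleGraph.Reachable.refl _
        | cons hadj p ih =>
          intro ha hb
          refine SimpleGraph.Reachable.trans (SimpleGraph.Adj.reachable ?_) (ih (by simp) hb)
          rw [hH, SimpleGraph.comap_adj]
          exact hadj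
      exact h2 _ _ p _ _
    have h3 : Nat.card H.ConnectedComponent ≤ 1 := by
      have : Subsingleton H.ConnectedComponent := h1.subsingleton_connectedComponent
      exact Finite.card_le_one_iff_subsingleton.2 this
    rw [sum_empty, zero_add]
    exact_mod_cast h3
  · have key := H56R.count h hS (c := fun v => if h : v ∉ S then
      (Quot.out (H.connectedComponentMk ⟨v, h⟩)).1 else v) ?_
    · have h0 : Nat.card H.ConnectedComponent ≤ ((univ \ S).image fun v => if h : v ∉ S then
          (Quot.out (H.connectedComponentMk ⟨v, h⟩)).1 else v).card := by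
        have h1 : Set.range (fun C : H.ConnectedComponent => (Quot.out C).1) ⊆
            (((univ \ S).image fun v => if h : v ∉ S then (Quot.out (H.connectedComponentMk ⟨v, h⟩)).1
              else v : Finset V) : Set V) := by
          rintro _ ⟨C, rfl⟩
          rw [mem_coe, mem_image]
          refine ⟨(Quot.out C).1, mem_sdiff.2 ⟨mem_univ _, (Quot.out C).2⟩, ?_⟩
          have h2 : (Quot.out C).1 ∉ S := (Quot.out C).2
          simp only [h2, not_false_eq_true, dif_pos]
          have h3 : H.connectedComponentMk ⟨(Quot.out C).1, h2⟩ = C := by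
            have : (⟨(Quot.out C).1, h2⟩ : {v | v ∉ S}) = Quot.out C := Subtype.ext rfl
            rw [this]
            exact Quot.out_eq C
          rw [h3]
        have h2 : Function.Injective fun C : H.ConnectedComponent => (Quot.out C).1 := by
          intro C C' hC
          have h3 : Quot.out C = Quot.out C' := Subtype.ext hC
          rw [← Quot.out_eq C, h3, Quot.out_eq]
        rw [← Set.ncard_coe_finset, ← Nat.card_coe_set_eq]
        calc Nat.card H.ConnectedComponent
            = Nat.card (Set.range fun C : H.ConnectedComponent => (Quot.out C).1) :=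
              (Nat.card_range_of_injective h2).symm
          _ ≤ _ := by
              rw [Nat.card_coe_set_eq, Nat.card_coe_set_eq]
              exact Set.ncard_le_ncard h1 (Set.toFinite _)
      have h3 : (Nat.card H.ConnectedComponent : ℝ) ≤ (((univ \ S).image fun v => if h : v ∉ S then
          (Quot.out (H.connectedComponentMk ⟨v, h⟩)).1 else v).card : ℝ) := by exact_mod_cast h0
      rw [sum_sub_distrib, sum_const, nsmul_eq_mul, mul_one]
      linarith
    · intro u hu v hv huv
      simp only [hu, hv, not_false_eq_true, dif_pos]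
      by_cases h : u = v
      · subst h
        rfl
      · have h1 : H.connectedComponentMk ⟨u, hu⟩ = H.connectedComponentMk ⟨v, hv⟩ := by
          apply SimpleGraph.ConnectedComponent.sound
          apply SimpleGraph.Adj.reachable
          rw [hH, SimpleGraph.comap_adj]
          change (SimpleGraph.fromEdgeSet (G : Set (Sym2 V))).Adj u v
          rw [SimpleGraph.fromEdgeSet_adj]
          exact ⟨mem_coe.2 huv, h⟩
        rw [h1]

/-- ALL TOGETHER, for one crossing relation. -/
theorem tree_degrees (hV : 2 ≤ Fintype.card V) {cross : Sym2 V → Sym2 V → Prop}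
    (hsymm : ∀ e f, cross e f → cross f e) (hHD : ∀ W : Finset V, HD cross W) {d : V → ℝ}
    (hd : ∀ v, 1 ≤ d v) (hs : ∑ v, d v = 2 * (Fintype.card V : ℝ) - 2) :
    ∃ G : Finset (Sym2 V), Plane cross G ∧
      (∃ (k : ℕ) (T : Fin k → SimpleGraph V) (w : Fin k → ℝ), (∀ i, 0 < w i) ∧ ∑ i, w i = 1 ∧
        (∀ i, T i ≤ SimpleGraph.fromEdgeSet (G : Set (Sym2 V)) ∧ (T i).IsTree) ∧
        ∀ v, ∑ i, w i * ((T i).neighborSet v).ncard = d v) ∧
      (∀ v0, ∃ T : SimpleGraph V, T ≤ SimpleGraph.fromEdgeSet (G : Set (Sym2 V)) ∧ T.IsTree ∧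
        (T.neighborSet v0).ncard ≤ ⌈d v0⌉₊ ∧ ∀ v, (T.neighborSet v).ncard ≤ ⌈d v⌉₊ + 1) ∧
      ∀ S : Finset V, (Nat.card ((SimpleGraph.fromEdgeSet (G : Set (Sym2 V))).induce
        {v | v ∉ S}).ConnectedComponent : ℝ) ≤ 1 + ∑ v ∈ S, (d v - 1) := by
  have : Nonempty V := Fintype.card_pos_iff.1 (by omega)
  obtain ⟨G, hG, -, y, hy⟩ := exists_TD hV hsymm hHD hd hs
  refine ⟨G, hG, dist_of_TD hy, fun v0 => H56R.tree_of_TD hy v0, fun S => ?_⟩
  rw [add_comm]
  exact comp_of_TD hy S

end H36S
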