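import Pool.Agent.Lib.H36S.Fin
import Pool.Agent.Lib.H97W.FinD

/-!
# H36S, file FinD: the theorem for a simple drawing, from `HD`
-/

set_option autoImplicit false

open Finset H98P H98Z H98M H63F SimpleDraw

namespace H36S

theorem drawing {n : ℕ} (D : SimpleDrawing n) (hHD : ∀ W : Finset (Fin n), HD (H53P.crossT (H53P.table D)) W)
    {d : Fin n → ℝ} (hd : ∀ v, 1 ≤ d v) (hs : ∑ v, d v = 2 * (n : ℝ) - 2) :
    ∃ G : SimpleGraph (Fin n), D.Plane G ∧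
      (∃ (k : ℕ) (T : Fin k → SimpleGraph (Fin n)) (w : Fin k → ℝ), (∀ i, T i ≤ G ∧ (T i).IsTree) ∧
        (∀ i, 0 < w i) ∧ ∑ i, w i = 1 ∧ ∀ v, ∑ i, w i * ((T i).neighborSet v).ncard = d v) ∧
      (∀ v₀, ∃ T ≤ G, T.IsTree ∧ (T.neighborSet v₀).ncard ≤ ⌈d v₀⌉₊ ∧
        ∀ v, (T.neighborSet v).ncard ≤ ⌈d v⌉₊ + 1) ∧
      ∀ S : Finset (Fin n), (Nat.card (G.induce {v | v ∉ S}).ConnectedComponent : ℝ) ≤ 1 + ∑ v ∈ S, (d v - 1) := by
  have hn : 2 ≤ n := by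
    rcases Nat.lt_or_ge n 2 with h | h
    · exfalso
      interval_cases n
      · rw [Finset.univ_eq_empty, Finset.sum_empty, Nat.cast_zero] at hs
        linarith
      · have h1 := hd 0
        rw [Fin.sum_univ_one, Nat.cast_one] at hs
        linarith
    · exact h
  obtain ⟨G, h1, ⟨k, T, w, h2, h3, h4, h5⟩, h6, h7⟩ := tree_degrees (V := Fin n)
    (by rw [Fintype.card_fin]; exact hn) (H53P.crossT_symm (H53P.table D)) hHD hd
    (by rw [Fintype.card_fin]; exact hs)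
  exact ⟨_, H97W.plane_of D h1, ⟨k, T, w, h4, h2, h3, h5⟩, h6, h7⟩

end H36S
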