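import Mathlib

/-!
# Rounding in the spanning tree polytope, part 1: the rank function

`KF F` is the space of the real functions on the vertices which are constant along the edges of `F`,
`rk F = n - dim KF F`.  It is submodular, and `x(F) ≤ rk F` for every point `x` of the spanning tree polytope.
-/

open Finset

set_option linter.unusedSectionVars false

namespace H36S

variable {V : Type*} [Fintype V] [DecidableEq V]

/-- functions constant along the edges of `F` -/
def KF (F : Finset (Sym2 V)) : Submodule ℝ (V → ℝ) where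
  carrier := {f | ∀ u v, s(u, v) ∈ F → f u = f v}
  add_mem' := by
    intro f g hf hg u v h
    simp only [Pi.add_apply]
    rw [hf u v h, hg u v h]
  zero_mem' := fun u v _ => rfl
  smul_mem' := by
    intro c f hf u v h
    simp only [Pi.smul_apply]
    rw [hf u v h]

theorem mem_KF {F : Finset (Sym2 V)} {f : V → ℝ} : f ∈ KF F ↔ ∀ u v, s(u, v) ∈ F → f u = f v := Iff.rfl

theorem KF_anti {F G : Finset (Sym2 V)} (h : F ⊆ G) : KF G ≤ KF F := fun _ hf u v e => hf u v (h e)

theorem KF_union (F G : Finset (Sym2 V)) : KF (F ∪ G) = KF F ⊓ KF G := by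
  ext f
  simp only [Submodule.mem_inf, mem_KF, Finset.mem_union]
  exact ⟨fun h => ⟨fun u v e => h u v (Or.inl e), fun u v e => h u v (Or.inr e)⟩,
    fun h u v e => e.elim (h.1 u v) (h.2 u v)⟩

/-- the rank -/
noncomputable def rk (F : Finset (Sym2 V)) : ℤ := (Fintype.card V : ℤ) - Module.finrank ℝ (KF F)

theorem rk_sub (F G : Finset (Sym2 V)) : rk (F ∪ G) + rk (F ∩ G) ≤ rk F + rk G := by
  have h1 := Submodule.finrank_sup_add_finrank_inf_eq (KF F) (KF G)
  have h2 : Module.finrank ℝ (KF F ⊔ KF G : Submodule ℝ (V → ℝ)) ≤ Module.finrank ℝ (KF (F ∩ G)) :=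
    Submodule.finrank_mono (sup_le (KF_anti inter_subset_left) (KF_anti inter_subset_right))
  unfold rk
  rw [KF_union]
  omega

theorem rk_empty : rk (∅ : Finset (Sym2 V)) = 0 := by
  have : KF (∅ : Finset (Sym2 V)) = ⊤ := by
    ext f
    simp [mem_KF]
  unfold rk
  rw [this, finrank_top, Module.finrank_fintype_fun_eq_card]
  omega

theorem one_mem (F : Finset (Sym2 V)) : (fun _ => (1 : ℝ)) ∈ KF F := fun _ _ _ => rfl

theorem finrank_pos' [Nonempty V] (F : Finset (Sym2 V)) : 1 ≤ Module.finrank ℝ (KF F) := by
  have : Nontrivial (KF F) := by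
    refine ⟨⟨⟨_, one_mem F⟩, 0, fun h => ?_⟩⟩
    have h1 := congrArg (fun g : KF F => (g : V → ℝ) (Classical.arbitrary V)) h
    simp at h1
  exact Module.finrank_pos

theorem rk_le [Nonempty V] (F : Finset (Sym2 V)) : rk F ≤ Fintype.card V - 1 := by
  have := finrank_pos' F
  unfold rk
  omega

theorem rk_single (e : Sym2 V) : rk {e} ≤ 1 := by
  induction e using Sym2.ind with
  | _ u v =>
  let φ : (V → ℝ) →ₗ[ℝ] ℝ := (LinearMap.proj u : (V → ℝ) →ₗ[ℝ] ℝ) - (LinearMap.proj v : (V → ℝ) →ₗ[ℝ] ℝ)
  have h1 : LinearMap.ker φ ≤ KF {s(u, v)} := by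
    intro f hf a b hab
    have hf' : f u = f v := by
      have : f u - f v = 0 := hf
      linarith
    rw [Finset.mem_singleton, Sym2.eq_iff] at hab
    rcases hab with ⟨rfl, rfl⟩ | ⟨rfl, rfl⟩
    · exact hf'
    · exact hf'.symm
  have h2 := LinearMap.finrank_range_add_finrank_ker φ
  have h3 : Module.finrank ℝ (LinearMap.range φ) ≤ 1 := by
    have := Submodule.finrank_le (LinearMap.range φ)
    simpa using this
  have h4 := Submodule.finrank_mono h1
  rw [Module.finrank_fintype_fun_eq_card] at h2
  unfold rk
  omega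

theorem rk_diag (e : Sym2 V) (he : e.IsDiag) : rk {e} = 0 := by
  induction e using Sym2.ind with
  | _ u v =>
  have huv : u = v := by simpa using he
  subst huv
  have : KF ({s(u, u)} : Finset (Sym2 V)) = ⊤ := by
    ext f
    simp only [Submodule.mem_top, iff_true]
    intro a b hab
    rw [Finset.mem_singleton, Sym2.eq_iff] at hab
    rcases hab with ⟨rfl, rfl⟩ | ⟨rfl, rfl⟩ <;> rfl
  unfold rk
  rw [this, finrank_top, Module.finrank_fintype_fun_eq_card]
  omega

/-- `f ∈ KF F` is constant on the components of `F` -/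
theorem KF_reach {F : Finset (Sym2 V)} {f : V → ℝ} (hf : f ∈ KF F) {u v : V}
    (h : (SimpleGraph.fromEdgeSet (F : Set (Sym2 V))).Reachable u v) : f u = f v := by
  obtain ⟨p⟩ := h
  induction p with
  | nil => rfl
  | cons h p ih =>
    rw [← ih]
    rw [SimpleGraph.fromEdgeSet_adj] at h
    exact hf _ _ (by simpa using h.1)

/-- every point of the spanning tree polytope is below the rank -/
theorem le_rk (x : Sym2 V → ℝ) (h0 : ∀ e, 0 ≤ x e)
    (hS : ∀ S : Finset V, S.Nonempty → ∑ e with (∀ v ∈ e, v ∈ S), x e ≤ S.card - 1) (F : Finset (Sym2 V)) :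
    ∑ e ∈ F, x e ≤ rk F := by
  classical
  set G := SimpleGraph.fromEdgeSet (F : Set (Sym2 V)) with hG
  have := Fintype.ofFinite G.ConnectedComponent
  -- the dimension is at most the number of components
  have h1 : Module.finrank ℝ (KF F) ≤ Fintype.card G.ConnectedComponent := by
    let φ : (G.ConnectedComponent → ℝ) →ₗ[ℝ] (V → ℝ) := LinearMap.funLeft ℝ ℝ G.connectedComponentMk
    have h2 : KF F ≤ LinearMap.range φ := by
      intro f hf
      refine ⟨fun C => f C.out, ?_⟩
      funext v
      change f (G.connectedComponentMk v).out = f v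
      apply KF_reach hf
      exact SimpleGraph.ConnectedComponent.exact (Quot.out_eq _)
    have h3 := Submodule.finrank_mono h2
    have h4 := LinearMap.finrank_range_le φ
    rw [Module.finrank_fintype_fun_eq_card] at h4
    omega
  let c : Sym2 V → G.ConnectedComponent := fun e => G.connectedComponentMk e.out.1
  have h5 : ∑ e ∈ F, x e = ∑ C : G.ConnectedComponent, ∑ e ∈ F with c e = C, x e :=
    (Finset.sum_fiberwise_of_maps_to (fun e _ => Finset.mem_univ _) _).symm
  have h6 : ∀ C : G.ConnectedComponent, ∑ e ∈ F with c e = C, x e ≤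
      ((univ.filter (fun v => G.connectedComponentMk v = C)).card : ℝ) - 1 := by
    intro C
    refine le_trans ?_ (hS (univ.filter (fun v => G.connectedComponentMk v = C)) ?_)
    · refine Finset.sum_le_sum_of_subset_of_nonneg ?_ (fun e _ _ => h0 e)
      intro e he
      rw [Finset.mem_filter] at he
      rw [Finset.mem_filter]
      refine ⟨Finset.mem_univ _, fun v hv => ?_⟩
      rw [Finset.mem_filter]
      refine ⟨Finset.mem_univ _, ?_⟩
      rw [← he.2]
      have he1 : s(e.out.1, e.out.2) = e := by
        have := Quot.out_eq e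
        conv_rhs => rw [← this]
      rw [← he1, Sym2.mem_iff] at hv
      rcases hv with rfl | rfl
      · rfl
      · change G.connectedComponentMk _ = G.connectedComponentMk _
        by_cases hne : e.out.2 = e.out.1
        · rw [hne]
        · apply SimpleGraph.ConnectedComponent.sound
          apply SimpleGraph.Adj.reachable
          rw [hG, SimpleGraph.fromEdgeSet_adj]
          refine ⟨?_, hne⟩
          rw [Sym2.eq_swap, he1]
          exact he.1
    · obtain ⟨v, hv⟩ := C.exists_rep
      exact ⟨v, by simp only [Finset.mem_filter, Finset.mem_univ, true_and]; exact hv⟩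
  have h7 : ∑ C : G.ConnectedComponent, (univ.filter (fun v => G.connectedComponentMk v = C)).card =
      Fintype.card V := by
    have := Finset.card_eq_sum_card_fiberwise (s := (univ : Finset V))
      (t := (univ : Finset G.ConnectedComponent)) (f := G.connectedComponentMk) (fun e _ => Finset.mem_coe.2 (Finset.mem_univ _))
    rw [← Finset.card_univ, this]
  have h8 : ∑ e ∈ F, x e ≤ (Fintype.card V : ℝ) - Fintype.card G.ConnectedComponent := by
    rw [h5]
    refine (Finset.sum_le_sum fun C _ => h6 C).trans ?_
    rw [Finset.sum_sub_distrib, ← h7]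
    push_cast
    simp
  have h9 : (Module.finrank ℝ (KF F) : ℝ) ≤ Fintype.card G.ConnectedComponent := by exact_mod_cast h1
  unfold rk
  push_cast
  linarith

/-- a set of `rk` at least `n - 1` is connected -/
theorem conn_of_rk [Nonempty V] {F : Finset (Sym2 V)} (h : (Fintype.card V : ℤ) - 1 ≤ rk F) :
    (SimpleGraph.fromEdgeSet (F : Set (Sym2 V))).Connected := by
  classical
  have h1 : Module.finrank ℝ (KF F) = 1 := by
    have := finrank_pos' F
    unfold rk at h
    omega
  have hne : (⟨_, one_mem F⟩ : KF F) ≠ 0 := by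
    intro h
    have h1 := congrArg (fun g : KF F => (g : V → ℝ) (Classical.arbitrary V)) h
    simp at h1
  have h2 := (finrank_eq_one_iff_of_nonzero' (⟨_, one_mem F⟩ : KF F) hne).1 h1
  have key : ∀ u v, (SimpleGraph.fromEdgeSet (F : Set (Sym2 V))).Reachable u v := by
    intro u v
    set f : V → ℝ := fun w => if (SimpleGraph.fromEdgeSet (F : Set (Sym2 V))).Reachable u w then 1 else 0 with hf
    have hfK : f ∈ KF F := by
      intro a b hab
      have h3 : (SimpleGraph.fromEdgeSet (F : Set (Sym2 V))).Reachable a b := by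
        by_cases hne : a = b
        · rw [hne]
        · apply SimpleGraph.Adj.reachable
          rw [SimpleGraph.fromEdgeSet_adj]
          exact ⟨hab, hne⟩
      simp only [hf]
      congr 1
      exact propext ⟨fun h => h.trans h3, fun h => h.trans h3.symm⟩
    obtain ⟨c, hc⟩ := h2 ⟨f, hfK⟩
    have hc' : ∀ w, c = f w := by
      intro w
      have := congrArg (fun g : KF F => (g : V → ℝ) w) hc
      simpa using this
    have h4 : f v = 1 := by
      rw [← hc' v, hc' u]
      simp [hf]
    by_contra hcon
    simp [hf, hcon] at h4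
  exact ⟨key⟩

end H36S
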