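import Pool.Agent.Lib.H36S.SL1

/-!
# Rounding in the spanning tree polytope, part 2: the extreme points are spanning trees

`PP G` is the set of the points `x ≥ 0` of the spanning tree polytope with support in `G`. `ext_tree`: its extreme
points are the indicator functions of spanning trees. `decomp`: every point is a convex combination of spanning trees
with edges in the support.
-/

open Finset

set_option linter.unusedSectionVars false

namespace H36S

variable {V : Type*} [Fintype V] [DecidableEq V]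

theorem card_le_of_inj {ι κ : Type*} [Fintype ι] [Fintype κ] [DecidableEq κ] (M : ι → κ → ℝ)
    (h : ∀ z : κ → ℝ, (∀ i, ∑ k, M i k * z k = 0) → z = 0) : Fintype.card κ ≤ Fintype.card ι := by
  have hinj : Function.Injective (Matrix.mulVecLin (Matrix.of M)) := by
    rw [← LinearMap.ker_eq_bot, LinearMap.ker_eq_bot']
    intro z hz
    apply h
    intro i
    have := congrFun hz i
    simpa [Matrix.mulVec, dotProduct] using this
  have := LinearMap.finrank_le_finrank_of_injective hinj
  simpa using this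

/-- the points of the spanning tree polytope with support in `G` -/
def PP (G : Finset (Sym2 V)) : Set (Sym2 V → ℝ) :=
  {x | (∀ e, 0 ≤ x e) ∧ (∀ e, e ∉ G → x e = 0) ∧ (∀ F : Finset (Sym2 V), ∑ e ∈ F, x e ≤ (rk F : ℝ)) ∧
    ∑ e, x e = (Fintype.card V : ℝ) - 1}

theorem PP_le_one {G : Finset (Sym2 V)} {x : Sym2 V → ℝ} (hx : x ∈ PP G) (e : Sym2 V) : x e ≤ 1 := by
  have h1 := hx.2.2.1 {e}
  rw [sum_singleton] at h1
  have h2 : (rk {e} : ℝ) ≤ 1 := by exact_mod_cast rk_single e
  linarith

theorem PP_compact (G : Finset (Sym2 V)) : IsCompact (PP G) := by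
  refine IsCompact.of_isClosed_subset (isCompact_Icc (a := (0 : Sym2 V → ℝ)) (b := 1)) ?_ ?_
  · simp only [PP, Set.setOf_and, Set.setOf_forall]
    refine IsClosed.inter ?_ (IsClosed.inter ?_ (IsClosed.inter ?_ ?_))
    · exact isClosed_iInter fun e => isClosed_le continuous_const (continuous_apply e)
    · exact isClosed_iInter fun e => isClosed_iInter fun _ => isClosed_eq (continuous_apply e) continuous_const
    · exact isClosed_iInter fun F => isClosed_le (continuous_finsetSum _ fun e _ => continuous_apply e)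
        continuous_const
    · exact isClosed_eq (continuous_finsetSum _ fun e _ => continuous_apply e) continuous_const
  · intro x hx
    exact ⟨fun e => hx.1 e, fun e => PP_le_one hx e⟩

theorem PP_convex (G : Finset (Sym2 V)) : Convex ℝ (PP G) := by
  intro x hx y hy a b ha hb hab
  refine ⟨fun e => ?_, fun e he => ?_, fun F => ?_, ?_⟩
  · exact add_nonneg (mul_nonneg ha (hx.1 e)) (mul_nonneg hb (hy.1 e))
  · change a * x e + b * y e = 0
    rw [hx.2.1 e he, hy.2.1 e he]
    ring
  · have h1 : ∑ e ∈ F, (a • x + b • y) e = a * ∑ e ∈ F, x e + b * ∑ e ∈ F, y e := by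
      rw [mul_sum, mul_sum, ← sum_add_distrib]
      rfl
    rw [h1]
    have h2 := mul_le_mul_of_nonneg_left (hx.2.2.1 F) ha
    have h3 := mul_le_mul_of_nonneg_left (hy.2.2.1 F) hb
    have h4 : a * (rk F : ℝ) + b * (rk F : ℝ) = (rk F : ℝ) := by rw [← add_mul, hab, one_mul]
    linarith
  · have h1 : ∑ e, (a • x + b • y) e = a * ∑ e, x e + b * ∑ e, y e := by
      rw [mul_sum, mul_sum, ← sum_add_distrib]
      rfl
    rw [h1, hx.2.2.2, hy.2.2.2, ← add_mul, hab, one_mul]

section Ext

variable {G : Finset (Sym2 V)} {y : Sym2 V → ℝ}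

/-- a tight set of edges -/
def Tight (y : Sym2 V → ℝ) (F : Finset (Sym2 V)) : Prop := ∑ e ∈ F, y e = (rk F : ℝ)

theorem tight_both (hy : y ∈ PP G) {A B : Finset (Sym2 V)} (hA : Tight y A) (hB : Tight y B) :
    Tight y (A ∪ B) ∧ Tight y (A ∩ B) := by
  have h1 := sum_union_inter (s₁ := A) (s₂ := B) (f := y)
  have h2 := hy.2.2.1 (A ∪ B)
  have h3 := hy.2.2.1 (A ∩ B)
  have h4 : (rk (A ∪ B) : ℝ) + rk (A ∩ B) ≤ rk A + rk B := by exact_mod_cast rk_sub A B
  unfold Tight at *
  constructor <;> linarith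

theorem tight_univ [Nonempty V] (hy : y ∈ PP G) : Tight y univ := by
  have h1 := hy.2.2.1 univ
  have h2 : (rk (univ : Finset (Sym2 V)) : ℝ) ≤ (Fintype.card V : ℝ) - 1 := by exact_mod_cast rk_le (V := V) univ
  have h3 := hy.2.2.2
  unfold Tight
  linarith

theorem tight_empty : Tight y ∅ := by
  unfold Tight
  rw [rk_empty, sum_empty]
  norm_num

/-- extremality -/
theorem ext_zero [Nonempty V] (hy : y ∈ (PP G).extremePoints ℝ) {z : Sym2 V → ℝ} (hz : ∀ e, y e = 0 → z e = 0)
    (hT : ∀ F, Tight y F → ∑ e ∈ F, z e = 0) : z = 0 := by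
  rw [mem_extremePoints] at hy
  obtain ⟨hyP, hext⟩ := hy
  have hev : ∀ᶠ t in nhds (0 : ℝ), y + t • z ∈ PP G := by
    have h1 : ∀ᶠ t in nhds (0 : ℝ), ∀ e, 0 ≤ (y + t • z) e := by
      rw [Filter.eventually_all]
      intro e
      by_cases he : y e = 0
      · refine Filter.Eventually.of_forall fun t => ?_
        change 0 ≤ y e + t * z e
        rw [he, hz e he]
        simp
      · have hpos : 0 < y e := lt_of_le_of_ne (hyP.1 e) (Ne.symm he)
        have hc : Filter.Tendsto (fun t : ℝ => y e + t * z e) (nhds 0) (nhds (y e + 0 * z e)) :=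
          (continuous_const.add (continuous_id.mul continuous_const)).tendsto 0
        rw [zero_mul, add_zero] at hc
        filter_upwards [hc.eventually (lt_mem_nhds hpos)] with t ht
        exact ht.le
    have h2 : ∀ᶠ t in nhds (0 : ℝ), ∀ F : Finset (Sym2 V), ∑ e ∈ F, (y + t • z) e ≤ (rk F : ℝ) := by
      rw [Filter.eventually_all]
      intro F
      have hs : ∀ t : ℝ, ∑ e ∈ F, (y + t • z) e = ∑ e ∈ F, y e + t * ∑ e ∈ F, z e := by
        intro t
        rw [mul_sum, ← sum_add_distrib]
        rfl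
      by_cases hF : Tight y F
      · refine Filter.Eventually.of_forall fun t => ?_
        rw [hs, hT F hF, mul_zero, add_zero]
        exact hyP.2.2.1 F
      · have hlt : ∑ e ∈ F, y e < (rk F : ℝ) := lt_of_le_of_ne (hyP.2.2.1 F) hF
        have hc : Filter.Tendsto (fun t : ℝ => ∑ e ∈ F, y e + t * ∑ e ∈ F, z e) (nhds 0)
            (nhds (∑ e ∈ F, y e + 0 * ∑ e ∈ F, z e)) :=
          (continuous_const.add (continuous_id.mul continuous_const)).tendsto 0
        rw [zero_mul, add_zero] at hc
        filter_upwards [hc.eventually (gt_mem_nhds hlt)] with t ht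
        rw [hs]
        exact ht.le
    filter_upwards [h1, h2] with t h1 h2
    refine ⟨h1, fun e he => ?_, h2, ?_⟩
    · change y e + t * z e = 0
      rw [hyP.2.1 e he, hz e (hyP.2.1 e he)]
      simp
    · have hs : ∑ e, (y + t • z) e = ∑ e, y e + t * ∑ e, z e := by
        rw [mul_sum, ← sum_add_distrib]
        rfl
      rw [hs, hT univ (tight_univ hyP), mul_zero, add_zero]
      exact hyP.2.2.2
  obtain ⟨ε, hε, h⟩ := Metric.eventually_nhds_iff.1 hev
  have hp : y + (ε / 2) • z ∈ PP G := h (by rw [Real.dist_eq, sub_zero, abs_of_pos (by positivity)]; linarith)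
  have hm : y + (-(ε / 2)) • z ∈ PP G := h (by
    rw [Real.dist_eq, sub_zero, abs_neg, abs_of_pos (by positivity)]
    linarith)
  have h3 := (hext _ hp _ hm ⟨1 / 2, 1 / 2, by norm_num, by norm_num, by norm_num, by
    funext e
    change 1 / 2 * (y e + ε / 2 * z e) + 1 / 2 * (y e + -(ε / 2) * z e) = y e
    ring⟩).1
  funext e
  have h4 : y e + ε / 2 * z e = y e := congrFun h3 e
  have h5 : ε / 2 * z e = 0 := by linarith
  rcases mul_eq_zero.1 h5 with h6 | h6
  · linarith
  · exact h6

/-- the support -/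
noncomputable def sp (y : Sym2 V → ℝ) : Finset (Sym2 V) := univ.filter fun e => y e ≠ 0

open Classical in
/-- the atom of `e` -/
noncomputable def at' (y : Sym2 V → ℝ) (e : Sym2 V) : Finset (Sym2 V) :=
  (sp y).filter fun f => ∀ F, Tight y F → (e ∈ F ↔ f ∈ F)

theorem mem_at {e f : Sym2 V} : f ∈ at' y e ↔ y f ≠ 0 ∧ ∀ F, Tight y F → (e ∈ F ↔ f ∈ F) := by
  simp [at', sp]

theorem at_eq {e f : Sym2 V} (h : f ∈ at' y e) : at' y f = at' y e := by
  rw [mem_at] at h
  ext g
  rw [mem_at, mem_at]
  exact and_congr_right fun _ => forall₂_congr fun F hF => by rw [h.2 F hF]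

/-- the weight of an atom is at least one -/
theorem one_le_at [Nonempty V] (hy : y ∈ PP G) {e : Sym2 V} (he : y e ≠ 0) : 1 ≤ ∑ f ∈ at' y e, y f := by
  classical
  set C : Finset (Sym2 V) := (univ.filter fun F => Tight y F ∧ e ∈ F).inf id with hC
  set D : Finset (Sym2 V) := (univ.filter fun F => Tight y F ∧ e ∉ F).sup id with hD
  have hCt : Tight y C := by
    rw [hC]
    refine inf_induction (p := Tight y) (tight_univ hy) (fun a ha b hb => (tight_both hy ha hb).2) ?_
    intro F hF
    exact (mem_filter.1 hF).2.1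
  have hDt : Tight y D := by
    rw [hD]
    refine sup_induction (p := Tight y) tight_empty (fun a ha b hb => (tight_both hy ha hb).1) ?_
    intro F hF
    exact (mem_filter.1 hF).2.1
  have hmC : ∀ f, f ∈ C ↔ ∀ F, Tight y F → e ∈ F → f ∈ F := by
    intro f
    rw [← singleton_subset_iff, hC]
    change {f} ≤ _ ↔ _
    rw [Finset.le_inf_iff]
    constructor
    · intro h F hF heF
      exact singleton_subset_iff.1 (h F (mem_filter.2 ⟨mem_univ _, hF, heF⟩))
    · intro h F hF
      exact singleton_subset_iff.2 (h F (mem_filter.1 hF).2.1 (mem_filter.1 hF).2.2)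
  have hmD : ∀ f, f ∈ D ↔ ∃ F, Tight y F ∧ e ∉ F ∧ f ∈ F := by
    intro f
    rw [hD, mem_sup]
    constructor
    · rintro ⟨F, hF, hf⟩
      exact ⟨F, (mem_filter.1 hF).2.1, (mem_filter.1 hF).2.2, hf⟩
    · rintro ⟨F, h1, h2, h3⟩
      exact ⟨F, mem_filter.2 ⟨mem_univ _, h1, h2⟩, h3⟩
  have h1 : ∑ f ∈ at' y e, y f = ∑ f ∈ C \ D, y f := by
    have hsub : at' y e ⊆ C \ D := by
      intro f hf
      rw [mem_at] at hf
      rw [mem_sdiff, hmC, hmD]
      refine ⟨fun F hF h => (hf.2 F hF).1 h, ?_⟩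
      rintro ⟨F, hF, h3, h4⟩
      exact h3 ((hf.2 F hF).2 h4)
    refine sum_subset hsub ?_
    intro f hf hf2
    by_contra h0
    apply hf2
    rw [mem_sdiff, hmC, hmD] at hf
    rw [mem_at]
    refine ⟨h0, fun F hF => ⟨hf.1 F hF, fun h => ?_⟩⟩
    by_contra h3
    exact hf.2 ⟨F, hF, h3, h⟩
  have h2 : ∑ f ∈ C \ D, y f = (rk C : ℝ) - rk (C ∩ D) := by
    have h3 := sum_sdiff (inter_subset_left : C ∩ D ⊆ C) (f := y)
    rw [sdiff_inter_self_left] at h3
    have h4 := (tight_both hy hCt hDt).2
    unfold Tight at h4 hCt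
    linarith
  have h3 : 0 < ∑ f ∈ at' y e, y f := by
    have hmem : e ∈ at' y e := mem_at.2 ⟨he, fun F _ => Iff.rfl⟩
    have h4 : y e ≤ ∑ f ∈ at' y e, y f := single_le_sum (f := y) (fun f _ => hy.1 f) hmem
    have h5 : 0 < y e := lt_of_le_of_ne (hy.1 e) (Ne.symm he)
    linarith
  rw [h1, h2] at h3
  rw [h1, h2]
  have h4 : (0 : ℤ) < rk C - rk (C ∩ D) := by exact_mod_cast h3
  have h5 : (1 : ℤ) ≤ rk C - rk (C ∩ D) := by omega
  exact_mod_cast h5

theorem sum_atoms (g : Sym2 V → ℝ) : ∑ A ∈ (sp y).image (at' y), ∑ f ∈ A, g f = ∑ f ∈ sp y, g f := by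
  classical
  rw [← sum_fiberwise_of_maps_to (s := sp y) (t := (sp y).image (at' y)) (g := at' y)
    (fun e he => mem_image_of_mem _ he) g]
  refine sum_congr rfl fun A hA => ?_
  obtain ⟨e, he, rfl⟩ := mem_image.1 hA
  refine sum_congr ?_ fun _ _ => rfl
  ext f
  rw [mem_filter]
  constructor
  · intro h
    exact ⟨by rw [sp, mem_filter]; exact ⟨mem_univ _, (mem_at.1 h).1⟩, at_eq h⟩
  · rintro ⟨h1, h2⟩
    rw [← h2, mem_at]
    exact ⟨(mem_filter.1 h1).2, fun F _ => Iff.rfl⟩

/-- the extreme points have values `0` and `1` -/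
theorem ext_one [Nonempty V] (hy : y ∈ (PP G).extremePoints ℝ) {e : Sym2 V} (he : y e ≠ 0) : y e = 1 := by
  classical
  have hyP : y ∈ PP G := hy.1
  set At := (sp y).image (at' y) with hAt
  have hcard : (sp y).card ≤ At.card := by
    have h1 := card_le_of_inj (ι := {A // A ∈ At}) (κ := {e // e ∈ sp y}) (fun A f => if f.1 ∈ A.1 then 1 else 0) (by
      intro z hz
      set z' : Sym2 V → ℝ := fun f => if h : f ∈ sp y then z ⟨f, h⟩ else 0 with hz'
      have hzz : ∀ f : {e // e ∈ sp y}, z' f.1 = z f := by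
        intro f
        simp only [hz', f.2, dif_pos]
      have hA : ∀ A ∈ At, ∑ f ∈ A, z' f = 0 := by
        intro A hA
        have h2 := hz ⟨A, hA⟩
        rw [← h2]
        have hsub : A ⊆ sp y := by
          obtain ⟨e, _, rfl⟩ := mem_image.1 hA
          exact filter_subset _ _
        have h3 : ∑ f : {e // e ∈ sp y}, (if f.1 ∈ A then (1 : ℝ) else 0) * z f =
            ∑ f ∈ sp y, (if f ∈ A then (1 : ℝ) else 0) * z' f := by
          rw [← sum_coe_sort (sp y)]
          refine sum_congr rfl fun f _ => ?_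
          rw [hzz]
        rw [h3]
        simp only [ite_mul, one_mul, zero_mul]
        rw [← sum_filter, filter_mem_eq_inter, inter_eq_right.2 hsub]
      have h4 : z' = 0 := by
        refine ext_zero hy ?_ ?_
        · intro f hf
          have : f ∉ sp y := by simp [sp, hf]
          simp only [hz', this, dif_neg, not_false_iff]
        · intro F hF
          have h5 : ∑ f ∈ F, z' f = ∑ f ∈ sp y, (if f ∈ F then z' f else 0) := by
            rw [← sum_filter, filter_mem_eq_inter]
            symm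
            refine sum_subset inter_subset_right ?_
            intro f hf hf2
            have : f ∉ sp y := fun h => hf2 (mem_inter.2 ⟨h, hf⟩)
            simp only [hz', this, dif_neg, not_false_iff]
          rw [h5, ← sum_atoms]
          refine sum_eq_zero fun A hA' => ?_
          obtain ⟨e', he', rfl⟩ := mem_image.1 hA'
          by_cases h6 : e' ∈ F
          · rw [← hA _ hA']
            refine sum_congr rfl fun f hf => ?_
            rw [if_pos (((mem_at.1 hf).2 F hF).1 h6)]
          · refine sum_eq_zero fun f hf => ?_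
            rw [if_neg (fun h => h6 (((mem_at.1 hf).2 F hF).2 h))]
      funext f
      rw [← hzz, h4]
      rfl)
    simpa using h1
  have h1 : (At.card : ℝ) ≤ ∑ f ∈ sp y, y f := by
    rw [← sum_atoms, ← hAt]
    have : (At.card : ℝ) = ∑ A ∈ At, (1 : ℝ) := by simp
    rw [this]
    refine sum_le_sum fun A hA => ?_
    obtain ⟨e', he', rfl⟩ := mem_image.1 hA
    exact one_le_at hyP (mem_filter.1 he').2
  have h2 : ∑ f ∈ sp y, (1 - y f) ≤ 0 := by
    rw [sum_sub_distrib, sum_const, nsmul_eq_mul, mul_one]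
    have : ((sp y).card : ℝ) ≤ At.card := by exact_mod_cast hcard
    linarith
  have h3 : ∀ f ∈ sp y, 0 ≤ 1 - y f := fun f _ => by
    have := PP_le_one hyP f
    linarith
  have h4 : ∑ f ∈ sp y, (1 - y f) = 0 := le_antisymm h2 (sum_nonneg h3)
  have h5 := (sum_eq_zero_iff_of_nonneg h3).1 h4 e (by simp [sp, he])
  linarith

/-- THE EXTREME POINTS ARE SPANNING TREES -/
theorem ext_tree [Nonempty V] (hy : y ∈ (PP G).extremePoints ℝ) :
    (SimpleGraph.fromEdgeSet (sp y : Set (Sym2 V))).IsTree ∧ (∀ e ∈ sp y, ¬ e.IsDiag) ∧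
      y = fun e => if e ∈ sp y then 1 else 0 := by
  classical
  have hyP : y ∈ PP G := hy.1
  have hind : y = fun e => if e ∈ sp y then 1 else 0 := by
    funext e
    by_cases he : y e = 0
    · simp [sp, he]
    · simp only [sp, mem_filter, mem_univ, true_and, ne_eq, he, not_false_iff, if_true]
      exact ext_one hy he
  have hdiag : ∀ e ∈ sp y, ¬ e.IsDiag := by
    intro e he hd
    have h1 := hyP.2.2.1 {e}
    rw [sum_singleton, rk_diag e hd] at h1
    have h2 := ext_one hy (mem_filter.1 he).2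
    rw [h2] at h1
    norm_num at h1
  have hsum : (((sp y).card : ℝ)) = (Fintype.card V : ℝ) - 1 := by
    rw [← hyP.2.2.2]
    have h1 : ∑ e, y e = ∑ e ∈ sp y, y e := by
      symm
      refine sum_subset (subset_univ _) ?_
      intro e _ he
      by_contra h
      exact he (by simp [sp, h])
    rw [h1, card_eq_sum_ones]
    push_cast
    refine sum_congr rfl fun e he => ?_
    exact (ext_one hy (mem_filter.1 he).2).symm
  refine ⟨?_, hdiag, hind⟩
  rw [SimpleGraph.isTree_iff_connected_and_card]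
  constructor
  · apply conn_of_rk
    have h1 := hyP.2.2.1 (sp y)
    have h2 : ∑ e ∈ sp y, y e = ((sp y).card : ℝ) := by
      rw [card_eq_sum_ones]
      push_cast
      exact sum_congr rfl fun e he => ext_one hy (mem_filter.1 he).2
    rw [h2, hsum] at h1
    exact_mod_cast h1
  · rw [SimpleGraph.edgeSet_fromEdgeSet]
    have h1 : ((sp y : Set (Sym2 V)) \ Sym2.diagSet) = (sp y : Set (Sym2 V)) := by
      ext e
      simp only [Set.mem_diff, mem_coe, Sym2.mem_diagSet, and_iff_left_iff_imp]
      exact hdiag e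
    rw [h1, Nat.card_eq_fintype_card, Nat.card_eq_fintype_card]
    have h2 : Fintype.card (↑(sp y : Set (Sym2 V))) = (sp y).card := by
      simp
    rw [h2]
    have h3 : (((sp y).card + 1 : ℕ) : ℝ) = ((Fintype.card V : ℕ) : ℝ) := by
      push_cast
      linarith
    exact_mod_cast h3

end Ext

open Classical in
/-- EVERY POINT OF THE SPANNING TREE POLYTOPE IS A CONVEX COMBINATION OF SPANNING TREES with edges in its support. -/
theorem decomp [Nonempty V] (x : Sym2 V → ℝ) (h0 : ∀ e, 0 ≤ x e)
    (hS : ∀ S : Finset V, S.Nonempty → ∑ e with (∀ v ∈ e, v ∈ S), x e ≤ S.card - 1)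
    (hV : ∑ e, x e = (Fintype.card V : ℝ) - 1) :
    ∃ μ : Finset (Sym2 V) → ℝ, (∀ T, 0 ≤ μ T) ∧ ∑ T, μ T = 1 ∧
      (∀ T, μ T ≠ 0 → (SimpleGraph.fromEdgeSet (T : Set (Sym2 V))).IsTree ∧ (∀ e ∈ T, ¬ e.IsDiag) ∧
        ∀ e ∈ T, x e ≠ 0) ∧
      ∀ e, x e = ∑ T with e ∈ T, μ T := by
  have hx : x ∈ PP (sp x) := ⟨h0, fun e he => by
    by_contra h
    exact he (by simp [sp, h]), fun F => le_rk x h0 hS F, hV⟩
  set ind : Finset (Sym2 V) → (Sym2 V → ℝ) := fun T e => if e ∈ T then 1 else 0 with hind
  have hinj : Function.Injective ind := by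
    intro S T h
    ext e
    have h1 := congrFun h e
    simp only [hind] at h1
    by_cases h2 : e ∈ S <;> by_cases h3 : e ∈ T <;> simp_all
  set TT : Finset (Finset (Sym2 V)) := univ.filter fun T =>
    (SimpleGraph.fromEdgeSet (T : Set (Sym2 V))).IsTree ∧ (∀ e ∈ T, ¬ e.IsDiag) ∧ ∀ e ∈ T, x e ≠ 0 with hTT
  have h1 : x ∈ convexHull ℝ ((TT.image ind : Finset (Sym2 V → ℝ)) : Set (Sym2 V → ℝ)) := by
    have h2 := closure_convexHull_extremePoints (PP_compact (sp x)) (PP_convex (sp x))
    rw [← h2] at hx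
    refine closure_minimal (convexHull_mono ?_) (Set.Finite.isClosed_convexHull (𝕜 := ℝ) (finite_toSet _)) hx
    intro y hy
    obtain ⟨h3, h4, h5⟩ := ext_tree hy
    rw [mem_coe, mem_image]
    refine ⟨sp y, ?_, h5.symm⟩
    rw [hTT, mem_filter]
    refine ⟨mem_univ _, h3, h4, fun e he hxe => ?_⟩
    have h6 : y e = 0 := hy.1.2.1 e (by simp [sp, hxe])
    exact (mem_filter.1 he).2 h6
  rw [Finset.mem_convexHull'] at h1
  obtain ⟨w, hw0, hw1, hwx⟩ := h1
  refine ⟨fun T => if T ∈ TT then w (ind T) else 0, fun T => ?_, ?_, fun T hT => ?_, fun e => ?_⟩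
  · dsimp only
    split_ifs with h
    · exact hw0 _ (mem_image_of_mem _ h)
    · exact le_rfl
  · rw [← sum_filter, filter_mem_eq_inter, univ_inter, ← hw1, sum_image (fun a _ b _ h => hinj h)]
  · have h2 : T ∈ TT := by
      by_contra h
      exact hT (if_neg h)
    exact (mem_filter.1 h2).2
  · have h2 := congrFun hwx e
    rw [← h2, sum_image (fun a _ b _ h => hinj h), Finset.sum_apply]
    have h3 : ∀ T : Finset (Sym2 V), (if e ∈ T then (if T ∈ TT then w (ind T) else 0) else 0) =
        if T ∈ TT then (w (ind T) • ind T) e else 0 := by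
      intro T
      simp only [hind, Pi.smul_apply, smul_eq_mul]
      by_cases h4 : T ∈ TT <;> by_cases h5 : e ∈ T <;> simp [h4, h5]
    have h6 : ∑ T with e ∈ T, (if T ∈ TT then w (ind T) else 0) =
        ∑ T, if T ∈ TT then (w (ind T) • ind T) e else 0 := by
      rw [sum_filter]
      exact sum_congr rfl fun T _ => h3 T
    have h7 : (∑ T, if T ∈ TT then (w (ind T) • ind T) e else 0) =
        ∑ T ∈ TT, (w (ind T) • ind T) e := by
      rw [← sum_filter, filter_mem_eq_inter, univ_inter]
    exact (h6.trans h7).symm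

end H36S
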